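import Pool.Agent.HIK.Stmts

/-!
# Squad HIK, row AVG: density zero from segments
-/

set_option autoImplicit false

namespace Pool.Agent.HIK.H44

open Polynomial NumberField Pool.Agent.HIK

open scoped Classical in
theorem avg (box : BoxStmt) (dzc : DzcStmt) : AvgStmt := by
  intro K _ _ S hS
  obtain ⟨C, hC⟩ := box K
  obtain ⟨_, _, _, hcrit⟩ := dzc K
  apply hcrit S
  intro ε hε
  obtain ⟨m, hm⟩ : ∃ m, m = Module.finrank ℚ K := ⟨_, rfl⟩
  rw [← hm]
  have hden : (0 : ℝ) < C * 3 ^ m + 1 := by positivity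
  obtain ⟨X0, hX0⟩ := hS (ε / (C * 3 ^ m + 1)) (div_pos hε hden)
  refine ⟨max X0 1, ?_⟩
  intro X hX
  have hX1 : X0 ≤ X := le_trans (le_max_left _ _) hX
  have hX2 : 1 ≤ X := le_trans (le_max_right _ _) hX
  -- the finite sets
  let B : ℕ → Finset (𝓞 K) := fun Y => (hC Y).1.toFinset
  have hB : ∀ (Y : ℕ) (a : 𝓞 K), a ∈ B Y ↔ house (a : K) ≤ Y := fun Y a => by
    rw [(hC Y).1.mem_toFinset]
    rfl
  have hBc : ∀ Y : ℕ, (B Y).card ≤ C * (Y + 1) ^ m := by
    intro Y
    have h1 := (hC Y).2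
    rw [← hm] at h1
    rwa [Nat.subtype_card (B Y) (hB Y)] at h1
  let F : Finset (𝓞 K) := (B X).filter fun a => a ∈ S
  have hF : Nat.card {a : 𝓞 K // a ∈ S ∧ house (a : K) ≤ X} = F.card := by
    apply Nat.subtype_card
    intro a
    rw [Finset.mem_filter, hB, and_comm]
  let G : 𝓞 K → Finset ℕ := fun b => (Finset.range X).filter fun j : ℕ => b + (j : 𝓞 K) ∈ S
  have hG : ∀ b, Nat.card {j : ℕ // j < X ∧ b + (j : 𝓞 K) ∈ S} = (G b).card := by
    intro b
    apply Nat.subtype_card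
    intro j
    rw [Finset.mem_filter, Finset.mem_range]
  -- double counting
  have hcount : F.card * X ≤ ∑ b ∈ B (2 * X), (G b).card := by
    rw [← Finset.card_sigma, ← Finset.card_range X, ← Finset.card_product]
    rw [Finset.card_range X]
    apply Finset.card_le_card_of_injOn
      (fun x : 𝓞 K × ℕ => (⟨x.1 - (x.2 : 𝓞 K), x.2⟩ : (_ : 𝓞 K) × ℕ))
    · intro x hx
      rw [Finset.mem_coe, Finset.mem_product, Finset.mem_filter, Finset.mem_range, hB] at hx
      rw [Finset.mem_coe, Finset.mem_sigma, hB, Finset.mem_filter, Finset.mem_range]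
      refine ⟨?_, hx.2, ?_⟩
      · have h1 : ((x.1 - (x.2 : 𝓞 K) : 𝓞 K) : K) = (x.1 : K) + ((-(x.2 : ℤ) : ℤ) : K) := by
          push_cast
          ring
        have h2 := house_add_le (x.1 : K) ((-(x.2 : ℤ) : ℤ) : K)
        rw [house_intCast] at h2
        have h3 : ((|(-(x.2 : ℤ))| : ℤ) : ℝ) = (x.2 : ℝ) := by
          rw [abs_neg, Nat.abs_cast]
          push_cast
          rfl
        rw [h3] at h2
        have h4 : (x.2 : ℝ) ≤ (X : ℝ) := by exact_mod_cast hx.2.le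
        show house ((x.1 - (x.2 : 𝓞 K) : 𝓞 K) : K) ≤ ((2 * X : ℕ) : ℝ)
        have h5 : house ((x.1 - (x.2 : 𝓞 K) : 𝓞 K) : K) ≤ house (x.1 : K) + (x.2 : ℝ) := by
          rw [h1]
          exact h2
        have h6 : ((2 * X : ℕ) : ℝ) = 2 * (X : ℝ) := by
          push_cast
          rfl
        rw [h6]
        linarith [hx.1.1]
      · show x.1 - (x.2 : 𝓞 K) + (x.2 : 𝓞 K) ∈ S
        rw [sub_add_cancel]
        exact hx.1.2
    · intro x _ y _ hxy
      have h1 : x.2 = y.2 := congrArg Sigma.snd hxy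
      have h2 : x.1 - (x.2 : 𝓞 K) = y.1 - (y.2 : 𝓞 K) := congrArg Sigma.fst hxy
      rw [h1] at h2
      exact Prod.ext (sub_left_injective h2) h1
  have hGle : ∀ b ∈ B (2 * X), ((G b).card : ℝ) ≤ ε / (C * 3 ^ m + 1) * X := by
    intro b hb
    rw [← hG b]
    rw [hB] at hb
    push_cast at hb
    exact hX0 X hX1 b hb
  have hXp : (0 : ℝ) < (X : ℝ) := by exact_mod_cast hX2
  have h1 : (F.card : ℝ) * X ≤ (C * (2 * X + 1) ^ m) * (ε / (C * 3 ^ m + 1) * X) := by
    calc (F.card : ℝ) * X = ((F.card * X : ℕ) : ℝ) := by push_cast; rfl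
      _ ≤ ((∑ b ∈ B (2 * X), (G b).card : ℕ) : ℝ) := by exact_mod_cast hcount
      _ = ∑ b ∈ B (2 * X), ((G b).card : ℝ) := by push_cast; rfl
      _ ≤ ∑ b ∈ B (2 * X), ε / (C * 3 ^ m + 1) * X := Finset.sum_le_sum hGle
      _ = ((B (2 * X)).card : ℝ) * (ε / (C * 3 ^ m + 1) * X) := by
        rw [Finset.sum_const, nsmul_eq_mul]
      _ ≤ _ := by
        apply mul_le_mul_of_nonneg_right
        · have := hBc (2 * X)
          have h2 : ((B (2 * X)).card : ℝ) ≤ ((C * (2 * X + 1) ^ m : ℕ) : ℝ) := by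
            exact_mod_cast this
          push_cast at h2
          exact h2
        · positivity
  have h2 : ((2 : ℝ) * X + 1) ^ m ≤ (3 * X) ^ m := by
    apply pow_le_pow_left₀ (by positivity)
    have : (1 : ℝ) ≤ (X : ℝ) := by exact_mod_cast hX2
    linarith
  rw [hF]
  have h3 : (F.card : ℝ) ≤ (C * (2 * X + 1) ^ m) * (ε / (C * 3 ^ m + 1)) := by
    apply le_of_mul_le_mul_right _ hXp
    linarith
  calc (F.card : ℝ) ≤ (C * (2 * X + 1) ^ m) * (ε / (C * 3 ^ m + 1)) := h3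
    _ ≤ (C * (3 * X) ^ m) * (ε / (C * 3 ^ m + 1)) := by
      apply mul_le_mul_of_nonneg_right
      · exact mul_le_mul_of_nonneg_left h2 (Nat.cast_nonneg C)
      · positivity
    _ = (C * 3 ^ m) / (C * 3 ^ m + 1) * (ε * X ^ m) := by
      rw [mul_pow]
      ring
    _ ≤ 1 * (ε * X ^ m) := by
      apply mul_le_mul_of_nonneg_right
      · rw [div_le_one hden]
        linarith
      · positivity
    _ = ε * X ^ m := one_mul _

end Pool.Agent.HIK.H44
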