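import Pool.Agent.HIK.Stmts

/-!
# Squad HIK, row SNG: the singular residues
-/

set_option autoImplicit false

namespace Pool.Agent.HIK.H44

open Polynomial NumberField Pool.Agent.HIK

/-- no integer between `0` and `p` lies in a proper ideal which contains the prime `p` -/
theorem not_mem {R : Type} [CommRing R] {P : Ideal R} (hP : P ≠ ⊤) {p : ℕ} (hp : p.Prime)
    (hpP : (p : R) ∈ P) {m : ℕ} (hm0 : 0 < m) (hmp : m < p) : (m : R) ∉ P := by
  intro h
  have hc : Nat.Coprime m p := (Nat.coprime_of_lt_prime hm0.ne' hmp hp).symm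
  obtain ⟨a, b, hab⟩ := Nat.isCoprime_iff_coprime.mpr hc
  apply hP
  rw [Ideal.eq_top_iff_one]
  have h1 : (1 : R) = (a : R) * (m : R) + (b : R) * (p : R) := by
    have := congrArg (fun z : ℤ => (z : R)) hab
    push_cast at this
    exact this.symm
  rw [h1]
  exact P.add_mem (P.mul_mem_left _ h) (P.mul_mem_left _ hpP)

theorem sng (prm : PrmStmt) : SngStmt := by
  intro K _ _ r hr
  have hl : r.leadingCoeff ≠ 0 := leadingCoeff_ne_zero.mpr hr
  obtain ⟨k, hk⟩ : ∃ k, k = Ideal.absNorm (Ideal.span {r.leadingCoeff}) := ⟨_, rfl⟩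
  have hk0 : k ≠ 0 := by
    rw [hk, Ne, Ideal.absNorm_eq_zero_iff, Ideal.span_singleton_eq_bot]
    exact hl
  have hkm : (k : 𝓞 K) ∈ Ideal.span {r.leadingCoeff} := by
    rw [hk]
    exact Ideal.absNorm_mem _
  refine ⟨k + 1, ?_⟩
  intro p hp hpk a0 S hS1 hS2
  obtain ⟨hfin, hcard, hun⟩ := prm K p hp
  classical
  have hsub : S ⊆ hfin.toFinset.biUnion fun P => S.filter fun n : ℕ => r.eval (a0 + (n : 𝓞 K)) ∈ P := by
    intro n hn
    have h1 := hS2 n hn
    have h2 : ∃ P ∈ Ab K p, r.eval (a0 + n) ∈ P := by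
      by_contra hcon
      push Not at hcon
      exact h1 (hun _ hcon)
    obtain ⟨P, hP, hPn⟩ := h2
    rw [Finset.mem_biUnion]
    exact ⟨P, hfin.mem_toFinset.mpr hP, Finset.mem_filter.mpr ⟨hn, hPn⟩⟩
  have hone : ∀ P ∈ hfin.toFinset, (S.filter fun n : ℕ => r.eval (a0 + (n : 𝓞 K)) ∈ P).card ≤
      r.natDegree := by
    intro P hP
    rw [hfin.mem_toFinset] at hP
    obtain ⟨hmax, hpP⟩ := hP
    have hne := hmax.ne_top
    let _ : Field (𝓞 K ⧸ P) := Ideal.Quotient.field P
    have hl2 : Ideal.Quotient.mk P r.leadingCoeff ≠ 0 := by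
      intro h0
      rw [Ideal.Quotient.eq_zero_iff_mem] at h0
      have h1 : Ideal.span {r.leadingCoeff} ≤ P := by
        rw [Ideal.span_singleton_le_iff_mem]
        exact h0
      exact not_mem hne hp hpP (Nat.pos_of_ne_zero hk0) (by omega) (h1 hkm)
    have hr2 : r.map (Ideal.Quotient.mk P) ≠ 0 := by
      intro h0
      apply hl2
      have := congrArg (fun f => f.coeff r.natDegree) h0
      rw [coeff_map, coeff_zero] at this
      exact this
    have hinj : Set.InjOn (fun n : ℕ => Ideal.Quotient.mk P (a0 + (n : 𝓞 K)))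
        (S.filter fun n : ℕ => r.eval (a0 + (n : 𝓞 K)) ∈ P : Finset ℕ) := by
      intro n hn n' hn' heq
      rw [Finset.mem_coe, Finset.mem_filter] at hn hn'
      have hnp := hS1 n hn.1
      have hnp' := hS1 n' hn'.1
      have h1 : (n : 𝓞 K) - n' ∈ P := by
        have := Ideal.Quotient.eq.mp heq
        rwa [add_sub_add_left_eq_sub] at this
      by_contra hneq
      rcases Nat.lt_or_gt_of_ne hneq with h | h
      · have h2 : ((n' - n : ℕ) : 𝓞 K) ∈ P := by
          rw [Nat.cast_sub h.le, ← neg_sub]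
          exact P.neg_mem h1
        exact not_mem hne hp hpP (by omega) (by omega) h2
      · have h2 : ((n - n' : ℕ) : 𝓞 K) ∈ P := by
          rw [Nat.cast_sub h.le]
          exact h1
        exact not_mem hne hp hpP (by omega) (by omega) h2
    rw [← Finset.card_image_of_injOn hinj]
    have hsub2 : (S.filter fun n : ℕ => r.eval (a0 + (n : 𝓞 K)) ∈ P).image
        (fun n : ℕ => Ideal.Quotient.mk P (a0 + (n : 𝓞 K))) ⊆
        (r.map (Ideal.Quotient.mk P)).roots.toFinset := by
      intro z hz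
      rw [Finset.mem_image] at hz
      obtain ⟨n, hn, rfl⟩ := hz
      rw [Finset.mem_filter] at hn
      rw [Multiset.mem_toFinset, mem_roots hr2, IsRoot, eval_map, eval₂_hom,
        Ideal.Quotient.eq_zero_iff_mem]
      exact hn.2
    calc _ ≤ (r.map (Ideal.Quotient.mk P)).roots.toFinset.card := Finset.card_le_card hsub2
      _ ≤ Multiset.card (r.map (Ideal.Quotient.mk P)).roots := Multiset.toFinset_card_le _
      _ ≤ (r.map (Ideal.Quotient.mk P)).natDegree := card_roots' _
      _ ≤ r.natDegree := natDegree_map_le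
  calc S.card ≤ (hfin.toFinset.biUnion fun P => S.filter fun n : ℕ => r.eval (a0 + (n : 𝓞 K)) ∈ P).card :=
      Finset.card_le_card hsub
    _ ≤ ∑ P ∈ hfin.toFinset, (S.filter fun n : ℕ => r.eval (a0 + (n : 𝓞 K)) ∈ P).card :=
      Finset.card_biUnion_le
    _ ≤ ∑ P ∈ hfin.toFinset, r.natDegree := Finset.sum_le_sum hone
    _ = hfin.toFinset.card * r.natDegree := by rw [Finset.sum_const, smul_eq_mul]
    _ ≤ Module.finrank ℚ K * r.natDegree := by
      apply Nat.mul_le_mul_right
      rw [← Set.ncard_eq_toFinset_card _ hfin]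
      exact hcard

end Pool.Agent.HIK.H44
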